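import Mathlib

/-!
# Entropies of one-dimensional matrix shifts are entropies of tree-shifts of finite type

For every non-empty matrix shift `X_A` with topological entropy `h` and every `d ≥ 2` there is a
tree-shift of finite type on the `d`-tree with entropy `h` if and only if `h ≤ log d`.

Construction. Let `w_k(i)` be the number of words of length `k + 1` of `X_A` which start with `i`.
If `h < log d`, then `w_K(i) ≤ d ^ K` for some `K ≥ 1` and all `i`, and the positive integers
`v_i = ∑_{k < K} w_k(i) d ^ (K - 1 - k)` satisfy `∑_j A_ij v_j ≤ d v_i`. So every symbol `i` can be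
split into `v_i` types with at most `d` successor types each. The tree-shift consists of the trees
in which a node of a given type has children of its successor types, each decorated with a free
bit, the remaining children (and all their descendants) being labelled by one filler symbol.
-/

set_option autoImplicit false

open Filter Topology

namespace Pool.Agent.Results.MP_29bdbb_an.MatrixShiftEntropies

/-! ### Tree-shifts -/

/-- The nodes of the `d`-tree of level less than `n`: the words of length less than `n`. -/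
def Delta (d n : ℕ) : Type := {w : List (Fin d) // w.length < n}

/-- An `n`-block with labels in `α`. -/
def Block (d : ℕ) (α : Type) (n : ℕ) : Type := Delta d n → α

/-- The `n`-block at the node `v` of the labelled tree `t`. -/
def blockAt {d : ℕ} {α : Type} (t : List (Fin d) → α) (v : List (Fin d)) (n : ℕ) : Block d α n :=
  fun w => t (v ++ w.1)

/-- The labelled trees in which no block of `𝓕` occurs at any node. -/
def treeShift {d : ℕ} {α : Type} (𝓕 : Set (Σ n : ℕ, Block d α n)) : Set (List (Fin d) → α) :=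
  {t | ∀ b ∈ 𝓕, ∀ v : List (Fin d), blockAt t v b.1 ≠ b.2}

/-- The set of `n`-blocks occurring in elements of `X`. -/
def blocks {d : ℕ} {α : Type} (X : Set (List (Fin d) → α)) (n : ℕ) : Set (Block d α n) :=
  {b | ∃ t ∈ X, ∃ v : List (Fin d), blockAt t v n = b}

/-- The entropy of `X`, the limit of `log (log |B_n(X)|) / n`, exists and is equal to `h`. (The
logarithms make sense because `|B_n(X)| > 1` for large `n` is required.) -/
def TreeEntropy {d : ℕ} {α : Type} (X : Set (List (Fin d) → α)) (h : ℝ) : Prop :=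
  (∀ᶠ n : ℕ in atTop, 1 < (blocks X n).ncard) ∧
    Tendsto (fun n : ℕ => Real.log (Real.log ((blocks X n).ncard : ℝ)) / n) atTop (𝓝 h)

/-- Some non-empty tree-shift of finite type on the `d`-tree, with a finite alphabet, has entropy
`h`. -/
def Realized (d : ℕ) (h : ℝ) : Prop :=
  ∃ (α : Type) (_ : Finite α) (𝓕 : Set (Σ n : ℕ, Block d α n)), 𝓕.Finite ∧
    (treeShift 𝓕).Nonempty ∧ TreeEntropy (treeShift 𝓕) h

/-! ### Matrix shifts -/

/-- The matrix shift `X_A`. -/
def matrixShift {S : Type} (A : Matrix S S ℕ) : Set (ℤ → S) :=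
  {x | ∀ i : ℤ, A (x i) (x (i + 1)) = 1}

/-- The words of length `n` occurring in points of `X`. -/
def words {S : Type} (X : Set (ℤ → S)) (n : ℕ) : Set (Fin n → S) :=
  {u | ∃ x ∈ X, ∃ k : ℤ, ∀ i : Fin n, u i = x (k + (i : ℕ))}

/-- The topological entropy of the shift space `X` is `h`. -/
def TopEntropy {S : Type} (X : Set (ℤ → S)) (h : ℝ) : Prop :=
  Tendsto (fun n : ℕ => Real.log ((words X n).ncard : ℝ) / n) atTop (𝓝 h)

/-! ### Growth rates -/

lemma tendsto_log_add_div (K : ℝ) (hK : 0 ≤ K) :
    Tendsto (fun n : ℕ => Real.log (K + n) / n) atTop (𝓝 0) := by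
  have h1 : Tendsto (fun n : ℕ => Real.log ((n : ℝ)) / n) atTop (𝓝 0) := by
    have := Real.isLittleO_log_id_atTop.tendsto_div_nhds_zero
    exact this.comp tendsto_natCast_atTop_atTop
  have h2 : Tendsto (fun n : ℕ => Real.log (K + 1) / n + Real.log ((n : ℝ)) / n) atTop (𝓝 0) := by
    have := (tendsto_const_div_atTop_nhds_zero_nat (Real.log (K + 1))).add h1
    simpa using this
  refine squeeze_zero' (g := fun n : ℕ => Real.log (K + 1) / n + Real.log ((n : ℝ)) / n) ?_ ?_ h2
  · filter_upwards [eventually_ge_atTop 1] with n hn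
    have : (1 : ℝ) ≤ n := by exact_mod_cast hn
    exact div_nonneg (Real.log_nonneg (by linarith)) (by linarith)
  · filter_upwards [eventually_ge_atTop 1] with n hn
    have h : (1 : ℝ) ≤ n := by exact_mod_cast hn
    rw [← add_div]
    refine div_le_div_of_nonneg_right ?_ (by linarith)
    rw [← Real.log_mul (by linarith) (by linarith)]
    exact Real.log_le_log (by linarith) (by nlinarith)

lemma growth (Y : ℕ → ℕ) (hY : ∀ k, 1 ≤ Y k) (L : ℝ)
    (hL : Tendsto (fun k : ℕ => Real.log (Y k) / k) atTop (𝓝 L)) (B : ℕ → ℕ) (c C : ℝ)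
    (hc : 0 < c) (hC : 0 < C) (h1 : ∀ n, c * Y n ≤ Real.log (B (n + 1)))
    (h2 : ∀ n, Real.log (B (n + 1)) ≤ C * (∑ k ∈ Finset.range (n + 1), Y k : ℕ)) :
    Tendsto (fun n : ℕ => Real.log (Real.log (B n)) / n) atTop (𝓝 L) := by
  have hY' : ∀ k, (1 : ℝ) ≤ Y k := fun k => by exact_mod_cast hY k
  have hL0 : 0 ≤ L := ge_of_tendsto' hL fun k =>
    div_nonneg (Real.log_nonneg (hY' k)) (Nat.cast_nonneg _)
  have hZ : ∀ n, (Y n : ℝ) ≤ (∑ k ∈ Finset.range (n + 1), Y k : ℕ) := fun n => by
    have : Y n ≤ ∑ k ∈ Finset.range (n + 1), Y k :=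
      Finset.single_le_sum (f := Y) (fun _ _ => Nat.zero_le _) (Finset.self_mem_range_succ n)
    exact_mod_cast this
  rw [← tendsto_add_atTop_iff_nat 1]
  refine tendsto_order.2 ⟨fun a ha => ?_, fun b hb => ?_⟩
  · have h3 : Tendsto (fun n : ℕ => Real.log c / ((n + 1 : ℕ) : ℝ) +
        Real.log (Y n) / n * ((n : ℝ) / ((n + 1 : ℕ) : ℝ))) atTop (𝓝 (0 + L * 1)) := by
      refine Tendsto.add ?_ (hL.mul ?_)
      · exact (tendsto_const_div_atTop_nhds_zero_nat (Real.log c)).comp (tendsto_add_atTop_nat 1)
      · have := tendsto_natCast_div_add_atTop (1 : ℝ)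
        simpa using this
    have h4 := (tendsto_order.1 h3).1 a (by linarith)
    filter_upwards [h4, eventually_ge_atTop 1] with n hn hn1
    refine hn.trans_le ?_
    have hnp : (0 : ℝ) < n := by exact_mod_cast hn1
    have hnp1 : (0 : ℝ) < ((n + 1 : ℕ) : ℝ) := by positivity
    have e : Real.log c / ((n + 1 : ℕ) : ℝ) + Real.log (Y n) / n * ((n : ℝ) / ((n + 1 : ℕ) : ℝ)) =
        (Real.log c + Real.log (Y n)) / ((n + 1 : ℕ) : ℝ) := by
      field_simp
    rw [e]
    refine div_le_div_of_nonneg_right ?_ hnp1.le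
    have hYn := hY' n
    rw [← Real.log_mul hc.ne' (by linarith)]
    exact Real.log_le_log (by positivity) (h1 n)
  · set ε := (b - L) / 2 with hε
    have hε0 : 0 < ε := by rw [hε]; linarith
    have h3 := (tendsto_order.1 hL).2 (L + ε) (by linarith)
    obtain ⟨N, hN⟩ := eventually_atTop.1 h3
    set K : ℕ := ∑ k ∈ Finset.range (N + 1), Y k with hK
    have h4 : ∀ n, N ≤ n → ((∑ k ∈ Finset.range (n + 1), Y k : ℕ) : ℝ) ≤
        (K + (n + 1 : ℕ)) * Real.exp ((L + ε) * (n + 1 : ℕ)) := by
      intro n hn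
      have hsplit : ∑ k ∈ Finset.range (n + 1), Y k ≤
          K + ∑ k ∈ Finset.Ico (N + 1) (n + 1), Y k := by
        rw [hK, Finset.sum_range_add_sum_Ico _ (by omega)]
      have h5 : ((∑ k ∈ Finset.Ico (N + 1) (n + 1), Y k : ℕ) : ℝ) ≤
          (n + 1 : ℕ) * Real.exp ((L + ε) * (n + 1 : ℕ)) := by
        rw [Nat.cast_sum]
        calc ∑ k ∈ Finset.Ico (N + 1) (n + 1), (Y k : ℝ)
            ≤ ∑ k ∈ Finset.Ico (N + 1) (n + 1), Real.exp ((L + ε) * (n + 1 : ℕ)) := by
              refine Finset.sum_le_sum fun k hk => ?_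
              rw [Finset.mem_Ico] at hk
              have hk1 := hN k (by omega)
              have hkp : (0 : ℝ) < k := by
                have : 0 < k := by omega
                exact_mod_cast this
              rw [div_lt_iff₀ hkp] at hk1
              have hYk := hY' k
              rw [← Real.log_le_iff_le_exp (by linarith)]
              refine hk1.le.trans ?_
              refine mul_le_mul_of_nonneg_left ?_ (by linarith)
              exact_mod_cast hk.2.le
          _ = ((Finset.Ico (N + 1) (n + 1)).card : ℝ) * Real.exp ((L + ε) * (n + 1 : ℕ)) := by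
              rw [Finset.sum_const, nsmul_eq_mul]
          _ ≤ _ := by
              refine mul_le_mul_of_nonneg_right ?_ (Real.exp_pos _).le
              rw [Nat.card_Ico]
              have : n + 1 - (N + 1) ≤ n + 1 := by omega
              exact_mod_cast this
      have h6 : (1 : ℝ) ≤ Real.exp ((L + ε) * (n + 1 : ℕ)) := by
        apply Real.one_le_exp
        positivity
      calc ((∑ k ∈ Finset.range (n + 1), Y k : ℕ) : ℝ)
          ≤ (K : ℝ) + (∑ k ∈ Finset.Ico (N + 1) (n + 1), Y k : ℕ) := by exact_mod_cast hsplit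
        _ ≤ K * Real.exp ((L + ε) * (n + 1 : ℕ)) +
              (n + 1 : ℕ) * Real.exp ((L + ε) * (n + 1 : ℕ)) := by
            refine add_le_add ?_ h5
            exact le_mul_of_one_le_right (Nat.cast_nonneg _) h6
        _ = _ := by ring
    have h7 : Tendsto (fun n : ℕ => Real.log C / ((n + 1 : ℕ) : ℝ) +
        Real.log ((K : ℝ) + (n + 1 : ℕ)) / ((n + 1 : ℕ) : ℝ)) atTop (𝓝 (0 + 0)) := by
      refine Tendsto.add ?_ ?_
      · exact (tendsto_const_div_atTop_nhds_zero_nat (Real.log C)).comp (tendsto_add_atTop_nat 1)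
      · exact (tendsto_log_add_div K (Nat.cast_nonneg _)).comp (tendsto_add_atTop_nat 1)
    have h8 := (tendsto_order.1 h7).2 ε (by linarith)
    filter_upwards [h8, eventually_ge_atTop N] with n hn hn1
    have hnp1 : (0 : ℝ) < ((n + 1 : ℕ) : ℝ) := by positivity
    have hpos : 0 < Real.log (B (n + 1)) := by
      have := h1 n
      have hYn := hY' n
      have : 0 < c * Y n := by positivity
      linarith
    have hZ1 : (1 : ℝ) ≤ (∑ k ∈ Finset.range (n + 1), Y k : ℕ) := (hY' n).trans (hZ n)
    have hK0 : (0 : ℝ) < (K : ℝ) + (n + 1 : ℕ) := by positivity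
    have h9 : Real.log (Real.log (B (n + 1))) ≤
        Real.log C + (Real.log ((K : ℝ) + (n + 1 : ℕ)) + (L + ε) * (n + 1 : ℕ)) := by
      calc Real.log (Real.log (B (n + 1)))
          ≤ Real.log (C * (∑ k ∈ Finset.range (n + 1), Y k : ℕ)) :=
            Real.log_le_log hpos (h2 n)
        _ = Real.log C + Real.log ((∑ k ∈ Finset.range (n + 1), Y k : ℕ) : ℝ) :=
            Real.log_mul hC.ne' (by linarith)
        _ ≤ Real.log C + Real.log ((K + (n + 1 : ℕ)) * Real.exp ((L + ε) * (n + 1 : ℕ))) := by
            refine add_le_add le_rfl (Real.log_le_log (by linarith) (h4 n hn1))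
        _ = _ := by
            rw [Real.log_mul hK0.ne' (Real.exp_pos _).ne', Real.log_exp]
    calc Real.log (Real.log (B (n + 1))) / ((n + 1 : ℕ) : ℝ)
        ≤ (Real.log C + (Real.log ((K : ℝ) + (n + 1 : ℕ)) + (L + ε) * (n + 1 : ℕ))) /
            ((n + 1 : ℕ) : ℝ) := div_le_div_of_nonneg_right h9 hnp1.le
      _ = (Real.log C / ((n + 1 : ℕ) : ℝ) +
        Real.log ((K : ℝ) + (n + 1 : ℕ)) / ((n + 1 : ℕ) : ℝ)) + (L + ε) := by
          field_simp
          ring
      _ < ε + (L + ε) := by linarith
      _ = b := by rw [hε]; ring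

/-! ### The tree-shift of a successor function -/

section tau

variable {d : ℕ} {Q : Type} (τ : Q → Fin d → Option Q)

/-- type of the node `w` if the root has type `o` -/
def typ (o : Option Q) (w : List (Fin d)) : Option Q :=
  w.foldl (fun o c => o.bind fun s => τ s c) o

lemma typ_nil (o : Option Q) : typ τ o [] = o := rfl

lemma typ_cons (o : Option Q) (c : Fin d) (w : List (Fin d)) :
    typ τ o (c :: w) = typ τ (o.bind fun s => τ s c) w := rfl

lemma typ_append (o : Option Q) (v w : List (Fin d)) :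
    typ τ o (v ++ w) = typ τ (typ τ o v) w := by
  simp [typ, List.foldl_append]

lemma typ_none (w : List (Fin d)) : typ τ none w = none := by
  induction w with
  | nil => rfl
  | cons c w ih => rw [typ_cons]; exact ih

/-- the labels -/
abbrev Lab (Q : Type) : Type := Option (Q × Bool)

/-- the label `b` is allowed for the `c`-th child of a node labelled `a` -/
def Ok (a : Lab Q) (c : Fin d) (b : Lab Q) : Prop :=
  b.map Prod.fst = (a.map Prod.fst).bind fun s => τ s c

/-- the tree with root type `o` and bits `β` -/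
def tree (o : Option Q) (β : List (Fin d) → Bool) : List (Fin d) → Lab Q :=
  fun w => (typ τ o w).map fun s => (s, β w)

/-- the root and its children as nodes of level less than two -/
def rt : Delta d 2 := ⟨[], by simp⟩

/-- the root and its children as nodes of level less than two -/
def ch (c : Fin d) : Delta d 2 := ⟨[c], by simp⟩

/-- the forbidden blocks -/
def forb : Set (Σ n : ℕ, Block d (Lab Q) n) :=
  (fun b : Block d (Lab Q) 2 => (⟨2, b⟩ : Σ n : ℕ, Block d (Lab Q) n)) ''
    {b | ∃ c : Fin d, ¬ Ok τ (b rt) c (b (ch c))}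

lemma mem_treeShift_forb (t : List (Fin d) → Lab Q) :
    t ∈ treeShift (forb τ) ↔ ∀ w c, Ok τ (t w) c (t (w ++ [c])) := by
  constructor
  · intro h w c
    by_contra hcon
    refine h ⟨2, blockAt t w 2⟩ ⟨blockAt t w 2, ⟨c, ?_⟩, rfl⟩ w rfl
    simpa [blockAt, rt, ch] using hcon
  · rintro h _ ⟨b, ⟨c, hc⟩, rfl⟩ v hv
    apply hc
    have hv' : blockAt t v 2 = b := hv
    rw [← hv']
    have := h v c
    simpa [blockAt, rt, ch] using this

lemma tree_mem (o : Option Q) (β : List (Fin d) → Bool) : tree τ o β ∈ treeShift (forb τ) := by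
  rw [mem_treeShift_forb]
  intro w c
  unfold Ok tree
  rw [typ_append]
  simp only [Option.map_map, typ_cons, typ_nil]
  have e : (Prod.fst ∘ fun s : Q => (s, β (w ++ [c]))) = id := rfl
  have e' : (Prod.fst ∘ fun s : Q => (s, β w)) = id := rfl
  rw [e, e', Option.map_id]
  rfl

lemma eq_tree {t : List (Fin d) → Lab Q} (ht : t ∈ treeShift (forb τ)) :
    ∃ β, t = tree τ ((t []).map Prod.fst) β := by
  rw [mem_treeShift_forb] at ht
  have key : ∀ w, (t w).map Prod.fst = typ τ ((t []).map Prod.fst) w := by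
    intro w
    induction w using List.reverseRecOn with
    | nil => rfl
    | append_singleton w c ih =>
      rw [typ_append, ← ih]
      exact ht w c
  refine ⟨fun w => ((t w).map Prod.snd).getD false, ?_⟩
  funext w
  unfold tree
  rw [← key w]
  cases h : t w with
  | none => rfl
  | some p => simp [h]

lemma blockAt_tree (o : Option Q) (β : List (Fin d) → Bool) (v : List (Fin d)) (n : ℕ) :
    blockAt (tree τ o β) v n = blockAt (tree τ (typ τ o v) fun w => β (v ++ w)) [] n := by
  funext w
  simp only [blockAt, tree, typ_append, List.nil_append]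

/-- nodes of level less than `n` which have a type -/
def Dn (n : ℕ) (s : Q) : Type := {w : List (Fin d) // w.length < n ∧ (typ τ (some s) w).isSome}

instance (n : ℕ) (s : Q) : Finite (Dn τ n s) :=
  ((List.finite_length_lt (Fin d) n).subset fun _ h => h.1).to_subtype

/-- extension of the bits by `false` -/
noncomputable def ext {n : ℕ} {s : Q} (β : Dn τ n s → Bool) (w : List (Fin d)) : Bool :=
  open Classical in
  if h : w.length < n ∧ (typ τ (some s) w).isSome then β ⟨w, h⟩ else false

lemma ext_apply {n : ℕ} {s : Q} (β : Dn τ n s → Bool) (w : Dn τ n s) : ext τ β w.1 = β w := by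
  unfold ext
  rw [dif_pos w.2]
  rfl

/-- the block with root type `s` and bits `β` -/
noncomputable def gs (n : ℕ) (s : Q) (β : Dn τ n s → Bool) : Block d (Lab Q) n :=
  blockAt (tree τ (some s) (ext τ β)) [] n

lemma gs_inj (n : ℕ) (s : Q) : Function.Injective (gs τ n s) := by
  intro β β' h
  funext w
  have h1 := congrFun h ⟨w.1, w.2.1⟩
  obtain ⟨q, hq⟩ := Option.isSome_iff_exists.1 w.2.2
  simp only [gs, blockAt, List.nil_append, tree, hq, Option.map_some, Option.some.injEq,
    Prod.mk.injEq, true_and, ext_apply] at h1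
  exact h1

lemma gs_mem (n : ℕ) (s : Q) (β : Dn τ n s → Bool) :
    gs τ n s β ∈ blocks (treeShift (forb τ)) n :=
  ⟨_, tree_mem τ _ _, [], rfl⟩

lemma mem_blocks {n : ℕ} {b : Block d (Lab Q) n} (hb : b ∈ blocks (treeShift (forb τ)) n) :
    b = (fun _ => none) ∨ ∃ s β, b = gs τ n s β := by
  obtain ⟨t, ht, v, rfl⟩ := hb
  obtain ⟨β, hβ⟩ := eq_tree τ ht
  rw [hβ, blockAt_tree]
  generalize typ τ ((t []).map Prod.fst) v = o
  cases o with
  | none =>
    left
    funext w
    simp [blockAt, tree, typ_none]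
  | some s =>
    right
    refine ⟨s, fun w => β (v ++ w.1), ?_⟩
    funext w
    simp only [blockAt, List.nil_append, tree, gs]
    cases h : typ τ (some s) w.1 with
    | none => rfl
    | some q =>
      have := ext_apply τ (fun w : Dn τ n s => β (v ++ w.1)) ⟨w.1, w.2, by rw [h]; rfl⟩
      simp only [Option.map_some, Option.some.injEq, Prod.mk.injEq, true_and]
      exact this.symm

/-- number of nodes of level `k` with a type -/
def rr : ℕ → Option Q → ℕ
  | 0, none => 0
  | 0, some _ => 1
  | k + 1, o => ∑ c : Fin d, rr k (o.bind fun s => τ s c)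

/-- nodes of level `k` which have a type -/
def Dk (k : ℕ) (o : Option Q) : Type := {w : List (Fin d) // w.length = k ∧ (typ τ o w).isSome}

instance (k : ℕ) (o : Option Q) : Finite (Dk τ k o) :=
  ((List.finite_length_eq (Fin d) k).subset fun _ h => h.1).to_subtype

/-- splitting off the first letter -/
def dkEquiv (k : ℕ) (o : Option Q) :
    Dk τ (k + 1) o ≃ Σ c : Fin d, Dk τ k (o.bind fun s => τ s c) where
  toFun w := match w with
    | ⟨c :: w, h⟩ => ⟨c, w, by simpa using h.1, h.2⟩
  invFun p := ⟨p.1 :: p.2.1, by simp [p.2.2.1], p.2.2.2⟩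
  left_inv w := by
    match w with
    | ⟨c :: w, h⟩ => rfl
  right_inv p := rfl

lemma card_Dk (k : ℕ) (o : Option Q) : Nat.card (Dk τ k o) = rr τ k o := by
  induction k generalizing o with
  | zero =>
    cases o with
    | none =>
      have : IsEmpty (Dk τ 0 none) := ⟨fun w => by
        obtain ⟨w, h1, h2⟩ := w
        rw [typ_none] at h2
        simp at h2⟩
      rw [Nat.card_of_isEmpty]; rfl
    | some s =>
      have : Unique (Dk τ 0 (some s)) :=
        { default := ⟨[], rfl, rfl⟩
          uniq := fun w => by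
            obtain ⟨w, h1, h2⟩ := w
            have : w = [] := List.length_eq_zero_iff.1 h1
            subst this; rfl }
      rw [Nat.card_unique]; rfl
  | succ k ih =>
    rw [Nat.card_congr (dkEquiv τ k o), Nat.card_sigma]
    simp only [ih]
    rfl

lemma card_Dn_ge (n : ℕ) (s : Q) : rr τ n (some s) ≤ Nat.card (Dn τ (n + 1) s) := by
  rw [← card_Dk]
  refine Nat.card_le_card_of_injective
    (fun w : Dk τ n (some s) => (⟨w.1, by have := w.2.1; omega, w.2.2⟩ : Dn τ (n + 1) s)) ?_
  intro a b h
  have : a.1 = b.1 := congrArg (fun x : Dn τ (n + 1) s => x.1) h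
  exact Subtype.ext this

lemma card_Dn_le (n : ℕ) (s : Q) :
    Nat.card (Dn τ n s) ≤ ∑ k ∈ Finset.range n, rr τ k (some s) := by
  have h1 : Nat.card (Σ k : Fin n, Dk τ k (some s)) = ∑ k ∈ Finset.range n, rr τ k (some s) := by
    rw [Nat.card_sigma, Finset.sum_range]
    exact Finset.sum_congr rfl fun k _ => card_Dk τ k _
  rw [← h1]
  refine Nat.card_le_card_of_injective
    (fun w : Dn τ n s => (⟨⟨w.1.length, w.2.1⟩, ⟨w.1, rfl, w.2.2⟩⟩ :
      Σ k : Fin n, Dk τ k (some s))) ?_
  intro a b h
  have : (a.1 : List (Fin d)) = b.1 := congrArg (fun x : Σ k : Fin n, Dk τ k (some s) => x.2.1) h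
  exact Subtype.ext this

lemma blocks_finite {α : Type} [Finite α] (n : ℕ) (Y : Set (Block d α n)) : Y.Finite := by
  have : Finite (Delta d n) := (List.finite_length_lt (Fin d) n).to_subtype
  have : Finite (Block d α n) := by unfold Block; infer_instance
  exact Set.toFinite Y

lemma ncard_ge [Finite Q] (n : ℕ) (s : Q) :
    2 ^ rr τ n (some s) ≤ (blocks (treeShift (forb τ)) (n + 1)).ncard := by
  have h1 : (Set.range (gs τ (n + 1) s)).ncard = 2 ^ Nat.card (Dn τ (n + 1) s) := by
    rw [← Set.image_univ, Set.ncard_image_of_injective _ (gs_inj τ (n + 1) s), Set.ncard_univ,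
      Nat.card_fun]
    simp
  calc 2 ^ rr τ n (some s) ≤ 2 ^ Nat.card (Dn τ (n + 1) s) :=
        Nat.pow_le_pow_right (by norm_num) (card_Dn_ge τ n s)
    _ = _ := h1.symm
    _ ≤ _ := Set.ncard_le_ncard (by rintro _ ⟨β, rfl⟩; exact gs_mem τ _ _ _) (blocks_finite _ _)

lemma ncard_le [Fintype Q] (n : ℕ) :
    (blocks (treeShift (forb τ)) n).ncard ≤
      1 + ∑ s : Q, 2 ^ (∑ k ∈ Finset.range n, rr τ k (some s)) := by
  have hsub : blocks (treeShift (forb τ)) n ⊆ {fun _ => none} ∪ ⋃ s : Q, Set.range (gs τ n s) := by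
    intro b hb
    rcases mem_blocks τ hb with h | ⟨s, β, h⟩
    · exact Or.inl h
    · exact Or.inr (Set.mem_iUnion.2 ⟨s, β, h.symm⟩)
  have h2 : ∀ s : Q, (Set.range (gs τ n s)).ncard ≤ 2 ^ (∑ k ∈ Finset.range n, rr τ k (some s)) := by
    intro s
    have h1 : (Set.range (gs τ n s)).ncard = 2 ^ Nat.card (Dn τ n s) := by
      rw [← Set.image_univ, Set.ncard_image_of_injective _ (gs_inj τ n s), Set.ncard_univ,
        Nat.card_fun]
      simp
    rw [h1]
    exact Nat.pow_le_pow_right (by norm_num) (card_Dn_le τ n s)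
  calc (blocks (treeShift (forb τ)) n).ncard
      ≤ ({fun _ => none} ∪ ⋃ s : Q, Set.range (gs τ n s)).ncard :=
        Set.ncard_le_ncard hsub (blocks_finite _ _)
    _ ≤ ({fun _ => none} : Set (Block d (Lab Q) n)).ncard +
          (⋃ s : Q, Set.range (gs τ n s)).ncard := Set.ncard_union_le _ _
    _ ≤ 1 + ∑ s : Q, (Set.range (gs τ n s)).ncard := by
        refine Nat.add_le_add (Set.ncard_singleton _).le ?_
        exact Set.ncard_iUnion_le_of_fintype _
    _ ≤ _ := Nat.add_le_add_left (Finset.sum_le_sum fun s _ => h2 s) _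

/-- The tree-shift of `τ` has the entropy given by the growth of the number of typed nodes. -/
theorem realized_of_tau [Fintype Q] (L : ℝ)
    (hpos : ∀ k, 1 ≤ ∑ s : Q, rr τ k (some s))
    (hL : Tendsto (fun k : ℕ => Real.log ((∑ s : Q, rr τ k (some s) : ℕ) : ℝ) / k) atTop (𝓝 L)) :
    Realized d L := by
  classical
  have hlog2 : 0 < Real.log 2 := Real.log_pos (by norm_num)
  have hQ : 0 < Fintype.card Q := by
    by_contra hcon
    have h0 : IsEmpty Q := Fintype.card_eq_zero_iff.1 (by omega)
    have := hpos 0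
    simp at this
  have hQ' : (0 : ℝ) < Fintype.card Q := by exact_mod_cast hQ
  have hB2 : ∀ n (s : Q), (rr τ n (some s) : ℝ) * Real.log 2 ≤
      Real.log ((blocks (treeShift (forb τ)) (n + 1)).ncard : ℝ) := by
    intro n s
    rw [← Real.log_pow]
    refine Real.log_le_log (by positivity) ?_
    exact_mod_cast ncard_ge τ n s
  have h1 : ∀ n, Real.log 2 / Fintype.card Q * ((∑ s : Q, rr τ n (some s) : ℕ) : ℝ) ≤
      Real.log ((blocks (treeShift (forb τ)) (n + 1)).ncard : ℝ) := by
    intro n
    have h3 : ∑ s : Q, (rr τ n (some s) : ℝ) * Real.log 2 ≤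
        ∑ _s : Q, Real.log ((blocks (treeShift (forb τ)) (n + 1)).ncard : ℝ) :=
      Finset.sum_le_sum fun s _ => hB2 n s
    rw [← Finset.sum_mul, Finset.sum_const, nsmul_eq_mul, Finset.card_univ] at h3
    rw [div_mul_eq_mul_div, div_le_iff₀ hQ', Nat.cast_sum]
    linarith
  have hZ1 : ∀ n, 1 ≤ ∑ k ∈ Finset.range (n + 1), ∑ s : Q, rr τ k (some s) := fun n =>
    (hpos n).trans (Finset.single_le_sum (f := fun k => ∑ s : Q, rr τ k (some s))
      (fun _ _ => Nat.zero_le _) (Finset.self_mem_range_succ n))
  have h2 : ∀ n, Real.log ((blocks (treeShift (forb τ)) (n + 1)).ncard : ℝ) ≤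
      (Real.log (1 + Fintype.card Q) + Real.log 2) *
        (∑ k ∈ Finset.range (n + 1), ∑ s : Q, rr τ k (some s) : ℕ) := by
    intro n
    set Z : ℕ := ∑ k ∈ Finset.range (n + 1), ∑ s : Q, rr τ k (some s) with hZ
    have hle : (blocks (treeShift (forb τ)) (n + 1)).ncard ≤ (1 + Fintype.card Q) * 2 ^ Z := by
      refine (ncard_le τ (n + 1)).trans ?_
      have h4 : ∀ s : Q, 2 ^ (∑ k ∈ Finset.range (n + 1), rr τ k (some s)) ≤ 2 ^ Z := by
        intro s
        refine Nat.pow_le_pow_right (by norm_num) ?_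
        exact Finset.sum_le_sum fun k _ => Finset.single_le_sum
          (f := fun s => rr τ k (some s)) (fun _ _ => Nat.zero_le _) (Finset.mem_univ s)
      calc 1 + ∑ s : Q, 2 ^ (∑ k ∈ Finset.range (n + 1), rr τ k (some s))
          ≤ 2 ^ Z + ∑ _s : Q, 2 ^ Z := Nat.add_le_add Nat.one_le_two_pow
            (Finset.sum_le_sum fun s _ => h4 s)
        _ = _ := by rw [Finset.sum_const, Finset.card_univ, smul_eq_mul]; ring
    have hpos' : (0 : ℝ) < ((blocks (treeShift (forb τ)) (n + 1)).ncard : ℝ) := by
      obtain ⟨s⟩ : Nonempty Q := Fintype.card_pos_iff.1 hQ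
      have := (Nat.pow_pos (n := rr τ n (some s)) (by norm_num : 0 < 2)).trans_le (ncard_ge τ n s)
      exact_mod_cast this
    have hZr : (1 : ℝ) ≤ Z := by exact_mod_cast hZ1 n
    calc Real.log ((blocks (treeShift (forb τ)) (n + 1)).ncard : ℝ)
        ≤ Real.log ((1 + Fintype.card Q) * 2 ^ Z) := by
          refine Real.log_le_log hpos' ?_
          exact_mod_cast hle
      _ = Real.log (1 + Fintype.card Q) + Z * Real.log 2 := by
          rw [Real.log_mul (by positivity) (by positivity), Real.log_pow]
      _ ≤ _ := by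
          have h5 : 0 ≤ Real.log (1 + (Fintype.card Q : ℝ)) :=
            Real.log_nonneg (by linarith)
          nlinarith
  refine ⟨Lab Q, inferInstance, forb τ, ?_, ⟨_, tree_mem τ none fun _ => false⟩, ?_, ?_⟩
  · refine Set.Finite.image _ ?_
    exact blocks_finite 2 _
  · filter_upwards [eventually_ge_atTop 1] with n hn
    obtain ⟨m, rfl⟩ : ∃ m, n = m + 1 := ⟨n - 1, by omega⟩
    by_contra hcon
    have h3 := h1 m
    have h4 : (1 : ℝ) ≤ ((∑ s : Q, rr τ m (some s) : ℕ) : ℝ) := by exact_mod_cast hpos m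
    have h5 : Real.log ((blocks (treeShift (forb τ)) (m + 1)).ncard : ℝ) ≤ 0 := by
      refine Real.log_nonpos (Nat.cast_nonneg _) ?_
      exact_mod_cast not_lt.1 hcon
    have h6 : 0 < Real.log 2 / Fintype.card Q * ((∑ s : Q, rr τ m (some s) : ℕ) : ℝ) := by
      positivity
    linarith
  · refine growth (fun k => ∑ s : Q, rr τ k (some s)) hpos L hL
      (fun n => (blocks (treeShift (forb τ)) n).ncard) _ _ ?_ ?_ h1 h2
    · positivity
    · have h5 : 0 ≤ Real.log (1 + (Fintype.card Q : ℝ)) := Real.log_nonneg (by linarith)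
      linarith

end tau

/-! ### The full tree-shift and the upper bound -/

lemma realized_log {d : ℕ} (hd : 2 ≤ d) : Realized d (Real.log d) := by
  have hr : ∀ k, rr (fun (_ : Unit) (_ : Fin d) => some ()) k (some ()) = d ^ k := by
    intro k
    induction k with
    | zero => rfl
    | succ k ih =>
      show ∑ c : Fin d, rr (fun (_ : Unit) (_ : Fin d) => some ()) k (some ()) = _
      rw [ih, Finset.sum_const, Finset.card_univ, Fintype.card_fin, smul_eq_mul, pow_succ]
      ring
  refine realized_of_tau (fun (_ : Unit) (_ : Fin d) => some ()) _ (fun k => ?_) ?_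
  · simp only [Finset.univ_unique, Finset.sum_singleton]
    exact (hr k).symm ▸ Nat.one_le_pow _ _ (by omega)
  · refine tendsto_const_nhds.congr' ?_
    filter_upwards [eventually_ge_atTop 1] with k hk
    have hk' : (0 : ℝ) < k := by exact_mod_cast hk
    simp only [Finset.univ_unique, Finset.sum_singleton]
    have : ((rr (fun (_ : Unit) (_ : Fin d) => some ()) k (some default) : ℕ) : ℝ) =
        (d : ℝ) ^ k := by
      have := hr k
      exact_mod_cast this
    rw [this, Real.log_pow]
    field_simp

lemma card_Delta (d n : ℕ) (hd : 2 ≤ d) : Nat.card (Delta d n) ≤ d ^ n := by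
  have h1 : ∀ n, Nat.card (Delta d n) ≤ ∑ k ∈ Finset.range n, d ^ k := by
    intro n
    have h2 : Nat.card (Σ k : Fin n, (Fin (k : ℕ) → Fin d)) = ∑ k ∈ Finset.range n, d ^ k := by
      rw [Nat.card_sigma, Finset.sum_range]
      refine Finset.sum_congr rfl fun k _ => ?_
      rw [Nat.card_fun]
      simp
    rw [← h2]
    refine Nat.card_le_card_of_injective
      (fun w : Delta d n => (⟨⟨w.1.length, w.2⟩, w.1.get⟩ : Σ k : Fin n, (Fin (k : ℕ) → Fin d))) ?_
    intro a b h
    have h3 : (⟨a.1.length, a.1.get⟩ : Σ k : ℕ, (Fin k → Fin d)) = ⟨b.1.length, b.1.get⟩ :=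
      congrArg (fun x : Σ k : Fin n, (Fin (k : ℕ) → Fin d) =>
        (⟨(x.1 : ℕ), x.2⟩ : Σ k : ℕ, (Fin k → Fin d))) h
    have h4 : a.1 = b.1 := by
      have h5 := congrArg (fun x : Σ k : ℕ, (Fin k → Fin d) => List.ofFn x.2) h3
      simpa only [List.ofFn_get] using h5
    exact Subtype.ext h4
  refine (h1 n).trans ?_
  have h3 := Nat.geomSum_lt hd (fun (k : ℕ) (hk : k ∈ Finset.range n) => Finset.mem_range.1 hk)
  exact h3.le

lemma le_log_of_realized {d : ℕ} (hd : 2 ≤ d) {h : ℝ} (hR : Realized d h) : h ≤ Real.log d := by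
  obtain ⟨α, _, 𝓕, -, -, h1, h2⟩ := hR
  have hd' : (2 : ℝ) ≤ d := by exact_mod_cast hd
  set M : ℝ := max 1 (Real.log (Nat.card α)) with hM
  have hM1 : 1 ≤ M := le_max_left _ _
  have h3 : Tendsto (fun n : ℕ => Real.log M / n + Real.log d) atTop (𝓝 (0 + Real.log d)) :=
    (tendsto_const_div_atTop_nhds_zero_nat _).add tendsto_const_nhds
  rw [zero_add] at h3
  refine le_of_tendsto_of_tendsto h2 h3 ?_
  filter_upwards [h1, eventually_ge_atTop 1] with n hn hn1
  have hnp : (0 : ℝ) < n := by exact_mod_cast hn1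
  have hB : (blocks (treeShift 𝓕) n).ncard ≤ Nat.card α ^ Nat.card (Delta d n) := by
    have : Finite (Delta d n) := (List.finite_length_lt (Fin d) n).to_subtype
    have h4 : (blocks (treeShift 𝓕) n).ncard ≤ (Set.univ : Set (Block d α n)).ncard :=
      Set.ncard_le_ncard (Set.subset_univ _) (blocks_finite _ _)
    refine h4.trans ?_
    rw [Set.ncard_univ]
    exact (Nat.card_fun).le
  have hlogB : 0 < Real.log ((blocks (treeShift 𝓕) n).ncard : ℝ) :=
    Real.log_pos (by exact_mod_cast hn)
  have hB0 : (0 : ℝ) < ((blocks (treeShift 𝓕) n).ncard : ℝ) := by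
    have : 0 < (blocks (treeShift 𝓕) n).ncard := by omega
    exact_mod_cast this
  have h5 : Real.log ((blocks (treeShift 𝓕) n).ncard : ℝ) ≤ (d : ℝ) ^ n * M := by
    calc Real.log ((blocks (treeShift 𝓕) n).ncard : ℝ)
        ≤ Real.log ((Nat.card α : ℝ) ^ Nat.card (Delta d n)) := by
          refine Real.log_le_log hB0 ?_
          exact_mod_cast hB
      _ = Nat.card (Delta d n) * Real.log (Nat.card α) := Real.log_pow _ _
      _ ≤ (d : ℝ) ^ n * M := by
          refine mul_le_mul ?_ (le_max_right _ _) (Real.log_natCast_nonneg _) (by positivity)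
          exact_mod_cast card_Delta d n hd
  calc Real.log (Real.log ((blocks (treeShift 𝓕) n).ncard : ℝ)) / n
      ≤ Real.log ((d : ℝ) ^ n * M) / n :=
        div_le_div_of_nonneg_right (Real.log_le_log hlogB h5) hnp.le
    _ = Real.log M / n + Real.log d := by
        rw [Real.log_mul (by positivity) (by positivity), Real.log_pow]
        field_simp
        ring

/-! ### Words of a matrix shift -/

section words

variable {S : Type} (A : Matrix S S ℕ)

/-- the symbols which occur in points of the matrix shift -/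
def E : Type := {s : S // ∃ x ∈ matrixShift A, x 0 = s}

instance [Finite S] : Finite (E A) := by unfold E; infer_instance

noncomputable instance [Finite S] : Fintype (E A) := Fintype.ofFinite _

lemma shift_mem {x : ℤ → S} (hx : x ∈ matrixShift A) (k : ℤ) :
    (fun i => x (i + k)) ∈ matrixShift A := by
  intro i
  have := hx (i + k)
  rw [show i + k + 1 = i + 1 + k by ring] at this
  exact this

/-- a symbol of a point -/
def sym {x : ℤ → S} (hx : x ∈ matrixShift A) (k : ℤ) : E A :=
  ⟨x k, fun i => x (i + k), shift_mem A hx k, by simp⟩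

/-- the walks with `n` steps in the graph of the occurring symbols -/
def All (n : ℕ) : Type :=
  {u : Fin (n + 1) → E A // ∀ k : Fin n, A (u k.castSucc).1 (u k.succ).1 = 1}

/-- the walks with `n` steps which start in `i` -/
def Wk (n : ℕ) (i : E A) : Type :=
  {u : Fin (n + 1) → E A // u 0 = i ∧ ∀ k : Fin n, A (u k.castSucc).1 (u k.succ).1 = 1}

instance [Finite S] (n : ℕ) (i : E A) : Finite (Wk A n i) := by unfold Wk; infer_instance

instance [Finite S] (n : ℕ) : Finite (All A n) := by unfold All; infer_instance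

/-- walks by their first symbol -/
def allEquiv (n : ℕ) : All A n ≃ Σ i : E A, Wk A n i where
  toFun u := ⟨u.1 0, u.1, rfl, u.2⟩
  invFun p := ⟨p.2.1, p.2.2.2⟩
  left_inv _ := rfl
  right_inv p := by
    obtain ⟨i, u, h0, h1⟩ := p
    subst h0
    rfl

/-- splitting off the first step of a walk -/
def wkEquiv (n : ℕ) (i : E A) :
    Wk A (n + 1) i ≃ Σ j : {j : E A // A i.1 j.1 = 1}, Wk A n j.1 where
  toFun u := ⟨⟨u.1 1, by have := u.2.2 0; rw [Fin.castSucc_zero, u.2.1] at this; exact this⟩,
    Fin.tail u.1, rfl, fun k => u.2.2 k.succ⟩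
  invFun p := ⟨Fin.cons i p.2.1, rfl, fun k => by
    refine Fin.cases ?_ (fun k => ?_) k
    · have h1 : (Fin.cons i p.2.1 : Fin (n + 2) → E A) (Fin.succ 0) = p.1.1 := by
        rw [Fin.cons_succ]; exact p.2.2.1
      rw [Fin.castSucc_zero, Fin.cons_zero, h1]
      exact p.1.2
    · rw [Fin.cons_succ, ← Fin.succ_castSucc, Fin.cons_succ]
      exact p.2.2.2 k⟩
  left_inv u := by
    apply Subtype.ext
    have := Fin.cons_self_tail u.1
    rw [u.2.1] at this
    exact this
  right_inv p := by
    obtain ⟨⟨j, hj⟩, u⟩ := p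
    obtain ⟨u, h0, h1⟩ := u
    have h0' : u 0 = j := h0
    subst h0'
    rfl

/-- `ww k i` is the number of walks with `k` steps which start in `i` -/
noncomputable def ww [Finite S] : ℕ → E A → ℕ
  | 0, _ => 1
  | k + 1, i => ∑ j : {j : E A // A i.1 j.1 = 1}, ww k j.1

lemma card_Wk [Finite S] (k : ℕ) (i : E A) : Nat.card (Wk A k i) = ww A k i := by
  induction k generalizing i with
  | zero =>
    have : Unique (Wk A 0 i) :=
      { default := ⟨fun _ => i, rfl, fun k => k.elim0⟩
        uniq := fun u => by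
          apply Subtype.ext
          funext k
          have hk : k = 0 := Fin.ext (by have := k.2; show (k : ℕ) = 0; omega)
          rw [hk, u.2.1] }
    rw [Nat.card_unique]; rfl
  | succ k ih =>
    rw [Nat.card_congr (wkEquiv A k i), Nat.card_sigma]
    exact Finset.sum_congr rfl fun j _ => ih j.1

/-- the word of a walk -/
def toWord {n : ℕ} (u : All A n) : Fin (n + 1) → S := fun k => (u.1 k).1

lemma toWord_injective (n : ℕ) : Function.Injective (toWord A (n := n)) := by
  intro u v h
  apply Subtype.ext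
  funext k
  exact Subtype.ext (congrFun h k)

lemma range_toWord (n : ℕ) : Set.range (toWord A (n := n)) = words (matrixShift A) (n + 1) := by
  apply Set.Subset.antisymm
  · rintro _ ⟨u, rfl⟩
    obtain ⟨xm, hxm, hxm0⟩ := (u.1 0).2
    obtain ⟨xp, hxp, hxp0⟩ := (u.1 (Fin.last n)).2
    let u' : ℕ → S := fun m => (u.1 ⟨min m n, by omega⟩).1
    have hu' : ∀ k : Fin (n + 1), u' k = (u.1 k).1 := by
      intro k
      have e : (⟨min k n, by omega⟩ : Fin (n + 1)) = k := Fin.ext (by
        have := k.2
        show min (k : ℕ) n = k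
        omega)
      exact congrArg (fun z => (u.1 z).1) e
    have hstep : ∀ m, m < n → A (u' m) (u' (m + 1)) = 1 := by
      intro m hm
      have h1 := hu' (⟨m, hm⟩ : Fin n).castSucc
      have h2 := hu' (⟨m, hm⟩ : Fin n).succ
      simp only [Fin.val_castSucc, Fin.val_succ] at h1 h2
      rw [h1, h2]
      exact u.2 ⟨m, hm⟩
    have hu0 : u' 0 = xm 0 := by
      have := hu' 0
      rw [Fin.val_zero] at this
      rw [this, hxm0]
    have hun : u' n = xp 0 := by
      have := hu' (Fin.last n)
      rw [Fin.val_last] at this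
      rw [this, hxp0]
    let x : ℤ → S := fun k => if k < 0 then xm k else if k ≤ n then u' k.toNat else xp (k - n)
    have hx : x ∈ matrixShift A := by
      intro k
      show A (x k) (x (k + 1)) = 1
      simp only [x]
      rcases lt_trichotomy (k + 1) 0 with h | h | h
      · rw [if_pos (show k < 0 by omega), if_pos h]
        exact hxm k
      · have hk : k = -1 := by omega
        subst hk
        rw [if_pos (by norm_num), if_neg (by norm_num), if_pos (by simp)]
        have := hxm (-1)
        simp only [neg_add_cancel, Int.toNat_zero] at this ⊢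
        rw [hu0]
        exact this
      · rw [if_neg (show ¬ k < 0 by omega), if_neg (show ¬ k + 1 < 0 by omega)]
        rcases lt_trichotomy k n with h2 | h2 | h2
        · rw [if_pos h2.le, if_pos (show k + 1 ≤ n by omega)]
          have : (k + 1).toNat = k.toNat + 1 := by omega
          rw [this]
          exact hstep _ (by omega)
        · rw [if_pos h2.le, if_neg (show ¬ k + 1 ≤ n by omega), h2]
          have := hxp 0
          rw [Int.toNat_natCast, hun]
          simpa using this
        · rw [if_neg (show ¬ k ≤ n by omega), if_neg (show ¬ k + 1 ≤ n by omega)]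
          have := hxp (k - n)
          rw [show k - n + 1 = k + 1 - n by ring] at this
          exact this
    refine ⟨x, hx, 0, fun i => ?_⟩
    show (u.1 i).1 = x (0 + (i : ℕ))
    have hi := i.2
    simp only [x]
    rw [if_neg (by omega), if_pos (by omega), ← hu' i]
    congr 1
    omega
  · rintro u ⟨x, hx, k, hu⟩
    refine ⟨⟨fun i => sym A hx (k + (i : ℕ)), fun i => ?_⟩, ?_⟩
    · have := hx (k + (i : ℕ))
      simp only [Fin.val_castSucc, Fin.val_succ, sym]
      push_cast
      rw [← add_assoc]
      exact this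
    · funext i
      exact (hu i).symm

lemma ncard_words [Finite S] (n : ℕ) :
    (words (matrixShift A) (n + 1)).ncard = ∑ i : E A, ww A n i := by
  rw [← range_toWord, ← Set.image_univ, Set.ncard_image_of_injective _ (toWord_injective A n),
    Set.ncard_univ, Nat.card_congr (allEquiv A n), Nat.card_sigma]
  exact Finset.sum_congr rfl fun i _ => card_Wk A n i

lemma words_finite [Finite S] (X : Set (ℤ → S)) (n : ℕ) : (words X n).Finite := Set.toFinite _

lemma words_submul [Finite S] (X : Set (ℤ → S)) (m n : ℕ) :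
    (words X (m + n)).ncard ≤ (words X m).ncard * (words X n).ncard := by
  have : Finite (words X m) := (words_finite X m).to_subtype
  have : Finite (words X n) := (words_finite X n).to_subtype
  rw [← Nat.card_coe_set_eq, ← Nat.card_coe_set_eq, ← Nat.card_coe_set_eq, ← Nat.card_prod]
  refine Nat.card_le_card_of_injective (fun u : words X (m + n) =>
    ((⟨fun i => u.1 (Fin.castAdd n i), ?_⟩ : words X m),
      (⟨fun i => u.1 (Fin.natAdd m i), ?_⟩ : words X n))) ?_
  · obtain ⟨x, hx, k, h⟩ := u.2
    exact ⟨x, hx, k, fun i => h _⟩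
  · obtain ⟨x, hx, k, h⟩ := u.2
    refine ⟨x, hx, k + m, fun i => ?_⟩
    show u.1 (Fin.natAdd m i) = _
    rw [h, Fin.val_natAdd]
    push_cast
    rw [add_assoc]
  · intro u v h
    simp only [Prod.mk.injEq, Subtype.mk.injEq] at h
    apply Subtype.ext
    funext i
    refine Fin.addCases (fun i => ?_) (fun i => ?_) i
    · exact congrFun h.1 i
    · exact congrFun h.2 i

lemma words_pos [Finite S] {X : Set (ℤ → S)} (hX : X.Nonempty) (n : ℕ) :
    1 ≤ (words X n).ncard := by
  obtain ⟨x, hx⟩ := hX
  have : (words X n).Nonempty := ⟨fun i => x (0 + (i : ℕ)), x, hx, 0, fun i => rfl⟩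
  exact (Set.ncard_pos (words_finite X n)).2 this

/-- the topological entropy exists -/
lemma exists_topEntropy [Finite S] {X : Set (ℤ → S)} (hX : X.Nonempty) :
    ∃ h, TopEntropy X h := by
  have hsub : Subadditive (fun n : ℕ => Real.log ((words X n).ncard : ℝ)) := by
    intro m n
    have h1 : (0 : ℝ) < (words X m).ncard := by exact_mod_cast words_pos hX m
    have h2 : (0 : ℝ) < (words X n).ncard := by exact_mod_cast words_pos hX n
    have h3 : (0 : ℝ) < (words X (m + n)).ncard := by exact_mod_cast words_pos hX (m + n)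
    rw [← Real.log_mul h1.ne' h2.ne']
    refine Real.log_le_log h3 ?_
    exact_mod_cast words_submul X m n
  have hbdd : BddBelow (Set.range fun n : ℕ => Real.log ((words X n).ncard : ℝ) / n) := by
    refine ⟨0, ?_⟩
    rintro _ ⟨n, rfl⟩
    exact div_nonneg (Real.log_natCast_nonneg _) (Nat.cast_nonneg _)
  exact ⟨_, hsub.tendsto_lim hbdd⟩

/-! ### Splitting -/

variable [Finite S]

lemma ww_pos (k : ℕ) (i : E A) : 1 ≤ ww A k i := by
  induction k generalizing i with
  | zero => exact le_rfl
  | succ k ih =>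
    obtain ⟨x, hx, hx0⟩ := i.2
    have h1 : A i.1 (sym A hx 1).1 = 1 := by
      rw [← hx0]
      exact hx 0
    exact (ih (sym A hx 1)).trans (Finset.single_le_sum
      (f := fun j : {j : E A // A i.1 j.1 = 1} => ww A k j.1) (fun _ _ => Nat.zero_le _)
      (Finset.mem_univ ⟨sym A hx 1, h1⟩))

/-- the integers `v` -/
noncomputable def vv (d : ℕ) : ℕ → E A → ℕ
  | 0, _ => 0
  | m + 1, i => d * vv d m i + ww A m i

lemma vv_sum (d m : ℕ) (i : E A) :
    ∑ j : {j : E A // A i.1 j.1 = 1}, vv A d m j.1 + d ^ m = d * vv A d m i + ww A m i := by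
  induction m with
  | zero => simp [vv, ww]
  | succ m ih =>
    calc ∑ j : {j : E A // A i.1 j.1 = 1}, vv A d (m + 1) j.1 + d ^ (m + 1)
        = ∑ j : {j : E A // A i.1 j.1 = 1}, (d * vv A d m j.1 + ww A m j.1) + d ^ (m + 1) := rfl
      _ = d * (∑ j : {j : E A // A i.1 j.1 = 1}, vv A d m j.1 + d ^ m) +
            ∑ j : {j : E A // A i.1 j.1 = 1}, ww A m j.1 := by
          rw [Finset.sum_add_distrib, ← Finset.mul_sum]; ring
      _ = d * (d * vv A d m i + ww A m i) + ww A (m + 1) i := by rw [ih]; rfl
      _ = _ := rfl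

/-- If `w_K ≤ d ^ K` for some `K ≥ 1`, the entropy is realized on the `d`-tree. -/
theorem realized_of_le (hne : (matrixShift A).Nonempty) {h : ℝ}
    (hh : TopEntropy (matrixShift A) h) (d K : ℕ) (hK : 1 ≤ K) (hw : ∀ i, ww A K i ≤ d ^ K) :
    Realized d h := by
  classical
  set v : E A → ℕ := vv A d K with hv
  have hv1 : ∀ i, 1 ≤ v i := by
    intro i
    obtain ⟨m, rfl⟩ : ∃ m, K = m + 1 := ⟨K - 1, by omega⟩
    exact (ww_pos A m i).trans (Nat.le_add_left _ _)
  have hvs : ∀ i, ∑ j : {j : E A // A i.1 j.1 = 1}, v j.1 ≤ v i * d := by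
    intro i
    have := vv_sum A d K i
    have h2 := hw i
    rw [mul_comm (v i)]
    simp only [hv]
    omega
  have hθ : ∀ i, Nonempty ((Σ j : {j : E A // A i.1 j.1 = 1}, Fin (v j.1)) ↪
      Fin (v i) × Fin d) := by
    intro i
    apply Function.Embedding.nonempty_of_card_le
    rw [Fintype.card_sigma, Fintype.card_prod, Fintype.card_fin, Fintype.card_fin]
    simpa using hvs i
  let θ := fun i => (hθ i).some
  have θi : ∀ i, Function.Injective (θ i) := fun i => (θ i).injective
  let Q : Type := Σ i : E A, Fin (v i)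
  let conv : (i : E A) → (Σ j : {j : E A // A i.1 j.1 = 1}, Fin (v j.1)) → Q :=
    fun i e => ⟨e.1.1, e.2⟩
  let τ : Q → Fin d → Option Q := fun q c =>
    if hq : ∃ e, θ q.1 e = (q.2, c) then some (conv q.1 hq.choose) else none
  have hτ1 : ∀ (i : E A) e, τ ⟨i, (θ i e).1⟩ (θ i e).2 = some (conv i e) := by
    intro i e
    have hq : ∃ e', θ i e' = ((θ i e).1, (θ i e).2) := ⟨e, rfl⟩
    have h1 : hq.choose = e := θi i hq.choose_spec
    show (if hq : ∃ e', θ i e' = ((θ i e).1, (θ i e).2) then some (conv i hq.choose) else none) = _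
    rw [dif_pos hq, h1]
  have hrn : ∀ k, rr τ k none = 0 := by
    intro k
    induction k with
    | zero => rfl
    | succ k ih =>
      show ∑ c : Fin d, rr τ k none = 0
      rw [ih]; simp
  let a : ℕ → E A → ℕ := fun k i => ∑ l : Fin (v i), rr τ k (some ⟨i, l⟩)
  have ha0 : ∀ i, a 0 i = v i := by
    intro i
    show ∑ l : Fin (v i), 1 = v i
    simp
  have ha1 : ∀ k i, a (k + 1) i = ∑ j : {j : E A // A i.1 j.1 = 1}, a k j.1 := by
    intro k i
    have e1 : a (k + 1) i = ∑ p : Fin (v i) × Fin d, rr τ k (τ ⟨i, p.1⟩ p.2) := by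
      rw [Fintype.sum_prod_type]
      rfl
    have e2 : ∑ j : {j : E A // A i.1 j.1 = 1}, a k j.1 =
        ∑ e : (Σ j : {j : E A // A i.1 j.1 = 1}, Fin (v j.1)), rr τ k (some (conv i e)) := by
      rw [Fintype.sum_sigma]
    rw [e1, e2]
    symm
    refine Fintype.sum_of_injective (θ i) (θi i) _ _ ?_ ?_
    · intro p hp
      have : τ ⟨i, p.1⟩ p.2 = none := by
        show (if hq : ∃ e', θ i e' = (p.1, p.2) then some (conv i hq.choose) else none) = none
        rw [dif_neg]
        rintro ⟨e, he⟩
        exact hp ⟨e, he⟩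
      rw [this, hrn]
    · intro e
      rw [hτ1]
  have hva : ∀ k i, ww A k i ≤ a k i := by
    intro k
    induction k with
    | zero => intro i; rw [ha0]; exact hv1 i
    | succ k ih =>
      intro i
      rw [ha1]
      exact Finset.sum_le_sum fun j _ => ih j.1
  set V : ℕ := ∑ i, v i with hV
  have hvV : ∀ i, v i ≤ V := fun i =>
    Finset.single_le_sum (f := v) (fun _ _ => Nat.zero_le _) (Finset.mem_univ i)
  have hVa : ∀ k i, a k i ≤ V * ww A k i := by
    intro k
    induction k with
    | zero => intro i; rw [ha0]; show v i ≤ V * 1; rw [mul_one]; exact hvV i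
    | succ k ih =>
      intro i
      rw [ha1]
      show _ ≤ V * ∑ j : {j : E A // A i.1 j.1 = 1}, ww A k j.1
      rw [Finset.mul_sum]
      exact Finset.sum_le_sum fun j _ => ih j.1
  have hY : ∀ k, ∑ s : Q, rr τ k (some s) = ∑ i, a k i := by
    intro k
    rw [Fintype.sum_sigma]
  have hlow : ∀ k, (words (matrixShift A) (k + 1)).ncard ≤ ∑ s : Q, rr τ k (some s) := by
    intro k
    rw [ncard_words, hY]
    exact Finset.sum_le_sum fun i _ => hva k i
  have hup : ∀ k, ∑ s : Q, rr τ k (some s) ≤ V * (words (matrixShift A) (k + 1)).ncard := by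
    intro k
    rw [ncard_words, hY, Finset.mul_sum]
    exact Finset.sum_le_sum fun i _ => hVa k i
  have hwp : ∀ k, (1 : ℝ) ≤ (words (matrixShift A) k).ncard := fun k => by
    exact_mod_cast words_pos hne k
  have hV1 : (1 : ℝ) ≤ V := by
    obtain ⟨x, hx⟩ := hne
    have := (hv1 (sym A hx 0)).trans (hvV _)
    exact_mod_cast this
  refine realized_of_tau τ h (fun k => (words_pos hne (k + 1)).trans (hlow k)) ?_
  -- the growth rate of the number of words of length `k + 1`
  have hb : Tendsto (fun k : ℕ => Real.log ((words (matrixShift A) (k + 1)).ncard : ℝ) / k) atTop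
      (𝓝 h) := by
    have h1 := (tendsto_add_atTop_iff_nat 1).2 hh
    have h2 : Tendsto (fun k : ℕ => ((k : ℝ) + 1) / k) atTop (𝓝 1) := by
      have h3 := tendsto_natCast_div_add_atTop (1 : ℝ)
      have h4 := h3.inv₀ one_ne_zero
      simpa using h4
    have h5 := h1.mul h2
    rw [mul_one] at h5
    refine h5.congr' ?_
    filter_upwards [eventually_ge_atTop 1] with k hk
    have hkp : (0 : ℝ) < k := by exact_mod_cast hk
    push_cast
    field_simp
  have hb2 : Tendsto (fun k : ℕ => Real.log V / k +
      Real.log ((words (matrixShift A) (k + 1)).ncard : ℝ) / k) atTop (𝓝 h) := by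
    have := (tendsto_const_div_atTop_nhds_zero_nat (Real.log V)).add hb
    simpa using this
  refine tendsto_of_tendsto_of_tendsto_of_le_of_le hb hb2 (fun k => ?_) (fun k => ?_)
  · refine div_le_div_of_nonneg_right (Real.log_le_log ?_ ?_) (Nat.cast_nonneg _)
    · have := hwp (k + 1); linarith
    · exact_mod_cast hlow k
  · show Real.log ((∑ s : Q, rr τ k (some s) : ℕ) : ℝ) / k ≤ _
    rw [← add_div, ← Real.log_mul (by linarith) (by have := hwp (k + 1); linarith)]
    refine div_le_div_of_nonneg_right (Real.log_le_log ?_ ?_) (Nat.cast_nonneg _)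
    · have h1 := hwp (k + 1)
      have h2 : ((words (matrixShift A) (k + 1)).ncard : ℝ) ≤
        ((∑ s : Q, rr τ k (some s) : ℕ) : ℝ) := by exact_mod_cast hlow k
      linarith
    · exact_mod_cast hup k

theorem realized_of_lt (hne : (matrixShift A).Nonempty) {h : ℝ}
    (hh : TopEntropy (matrixShift A) h) (d : ℕ) (hd : 2 ≤ d) (hlt : h < Real.log d) :
    Realized d h := by
  have hd0 : (0 : ℝ) < d := by
    have : (2 : ℝ) ≤ d := by exact_mod_cast hd
    linarith
  have h1 := (tendsto_add_atTop_iff_nat 1).2 hh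
  have h2 : Tendsto (fun k : ℕ => ((k : ℝ) + 1) / k) atTop (𝓝 1) := by
    have h3 := tendsto_natCast_div_add_atTop (1 : ℝ)
    have h4 := h3.inv₀ one_ne_zero
    simpa using h4
  have h5 := h1.mul h2
  rw [mul_one] at h5
  have h6 := ((tendsto_order.1 h5).2 _ hlt).and (eventually_ge_atTop 1)
  obtain ⟨K, hK, hK1⟩ := h6.exists
  refine realized_of_le A hne hh d K hK1 fun i => ?_
  have hKp : (0 : ℝ) < K := by exact_mod_cast hK1
  have h7 : Real.log ((words (matrixShift A) (K + 1)).ncard : ℝ) < K * Real.log d := by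
    have h8 : Real.log ((words (matrixShift A) (K + 1)).ncard : ℝ) / ((K + 1 : ℕ) : ℝ) *
        (((K : ℝ) + 1) / K) = Real.log ((words (matrixShift A) (K + 1)).ncard : ℝ) / K := by
      push_cast
      field_simp
    rw [h8, div_lt_iff₀ hKp] at hK
    linarith
  have h9 : ((words (matrixShift A) (K + 1)).ncard : ℝ) < (d : ℝ) ^ K := by
    rw [← Real.log_pow] at h7
    refine (Real.log_lt_log_iff ?_ (by positivity)).1 h7
    exact_mod_cast words_pos hne (K + 1)
  have h10 : (words (matrixShift A) (K + 1)).ncard < d ^ K := by exact_mod_cast h9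
  rw [ncard_words] at h10
  exact (Finset.single_le_sum (f := fun i => ww A K i) (fun _ _ => Nat.zero_le _)
    (Finset.mem_univ i)).trans h10.le

end words

/-- Let `A` be a square `0`-`1` matrix indexed by a finite set such that the one-dimensional matrix
shift `X_A` is not empty. The topological entropy `h` of `X_A` is the entropy of some (non-empty)
tree-shift of finite type; more precisely, for every `d ≥ 2` it is the entropy of a tree-shift of
finite type on the `d`-tree if and only if `h ≤ log d`. -/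
theorem result (S : Type) [Finite S] (A : Matrix S S ℕ) (_hA : ∀ i j, A i j = 0 ∨ A i j = 1)
    (hne : (matrixShift A).Nonempty) :
    ∃ h : ℝ, TopEntropy (matrixShift A) h ∧ (∃ d : ℕ, 2 ≤ d ∧ Realized d h) ∧
      ∀ d : ℕ, 2 ≤ d → (Realized d h ↔ h ≤ Real.log d) := by
  obtain ⟨h, hh⟩ := exists_topEntropy hne
  have key : ∀ d : ℕ, 2 ≤ d → (Realized d h ↔ h ≤ Real.log d) := by
    intro d hd
    refine ⟨le_log_of_realized hd, fun hle => ?_⟩
    rcases hle.lt_or_eq with hlt | heq
    · exact realized_of_lt A hne hh d hd hlt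
    · rw [heq]; exact realized_log hd
  refine ⟨h, hh, ?_, key⟩
  obtain ⟨d, hd⟩ := exists_nat_ge (Real.exp h)
  refine ⟨max 2 d, le_max_left _ _, (key _ (le_max_left _ _)).2 ?_⟩
  rw [← Real.log_exp h]
  refine Real.log_le_log (Real.exp_pos _) (hd.trans ?_)
  exact_mod_cast le_max_right 2 d

end Pool.Agent.Results.MP_29bdbb_an.MatrixShiftEntropies
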